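import Mathlib

set_option autoImplicit false

namespace Pool.Agent.Feig

open Polynomial Function

/-- twice the distance of the critical orbit from the critical point -/
def w {R : Type} [CommRing R] (u : R) (m : ℕ) : R := (fun x => u - 1 - u * x ^ 2)^[m] 0

section Ring
variable {R S : Type} [CommRing R] [CommRing S]

lemma w_zero (u : R) : w u 0 = 0 := rfl

lemma w_succ (u : R) (m : ℕ) : w u (m + 1) = u - 1 - u * w u m ^ 2 := by
  rw [w, iterate_succ_apply']; rfl

lemma map_w (π : R →+* S) (u : R) (m : ℕ) : π (w u m) = w (π u) m := by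
  induction m with
  | zero => exact map_zero π
  | succ m ih => simp [w_succ, ih]

lemma w_add_dvd (u : R) (j m : ℕ) : w u j ^ 2 ∣ w u (m + 1 + j) - w u (m + 1) := by
  induction m with
  | zero =>
    refine ⟨-u, ?_⟩
    rw [zero_add, add_comm, w_succ, w_succ u 0, w_zero]
    ring
  | succ m ih =>
    obtain ⟨t, ht⟩ := ih
    refine ⟨-u * t * (w u (m + 1 + j) + w u (m + 1)), ?_⟩
    rw [show m + 1 + 1 + j = m + 1 + j + 1 by ring, w_succ u (m + 1 + j), w_succ u (m + 1)]
    linear_combination (-u * (w u (m + 1 + j) + w u (m + 1))) * ht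

lemma w_double {u : R} {m : ℕ} (h : w u m = 0) : w u (m + m) = 0 := by
  rw [w, iterate_add_apply]
  change (fun x => u - 1 - u * x ^ 2)^[m] (w u m) = 0
  rw [h]
  exact h

lemma w_unit [IsDomain R] {u : R} {m : ℕ} (h0 : w u m ≠ 0) (h : w u (m + m) = 0) :
    IsUnit (w u m) := by
  obtain _ | m := m
  · exact absurd rfl h0
  obtain ⟨t, ht⟩ := w_add_dvd u (m + 1) m
  refine IsUnit.of_mul_eq_one (-t) (mul_left_cancel₀ h0 ?_)
  rw [h] at ht
  linear_combination ht

lemma unit_of_w {u : R} {m : ℕ} (hm : 0 < m) (h : w u m = 0) : IsUnit u := by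
  obtain ⟨m, rfl⟩ := Nat.exists_eq_succ_of_ne_zero hm.ne'
  rw [Nat.succ_eq_add_one, w_succ] at h
  exact IsUnit.of_mul_eq_one (1 - w u m ^ 2) (by linear_combination h)

lemma unit_sub {u v : R} {m : ℕ} (hu : w u m = 0) (hv : IsUnit (w v m)) : IsUnit (v - u) := by
  refine isUnit_of_dvd_unit ?_ hv
  rw [← Ideal.mem_span_singleton, ← Ideal.Quotient.eq_zero_iff_mem, map_w,
    Ideal.Quotient.eq.2 (Ideal.mem_span_singleton_self (v - u)), ← map_w, hu, map_zero]

lemma w_two (h2 : (2 : R) = 0) (u : R) (m : ℕ) : u ^ 2 ^ m = u * (1 + w u m) := by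
  induction m with
  | zero => simp [w_zero]
  | succ m ih =>
    rw [pow_succ 2 m, pow_mul, ih, w_succ]
    linear_combination (u ^ 2 * (w u m + w u m ^ 2)) * h2

lemma monic_w (m : ℕ) : Monic (-(X * w (X : ℤ[X]) (m + 2))) ∧
    2 ≤ (-(X * w (X : ℤ[X]) (m + 2))).natDegree := by
  have key : ∀ p : ℤ[X], p.Monic → 2 ≤ p.natDegree →
      Monic (p ^ 2 + (X - X ^ 2)) ∧ 2 ≤ (p ^ 2 + (X - X ^ 2)).natDegree := by
    intro p hp h2
    have h1 : (X - X ^ 2 : ℤ[X]).natDegree < (p ^ 2).natDegree := by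
      rw [hp.natDegree_pow]
      refine lt_of_le_of_lt (b := 2) ?_ (by omega)
      compute_degree
    refine ⟨(hp.pow 2).add_of_left (degree_lt_degree h1), ?_⟩
    rw [natDegree_add_eq_left_of_natDegree_lt h1, hp.natDegree_pow]
    omega
  induction m with
  | zero =>
    have h := key (X ^ 2 - X) (by monicity!) (by
      have : (X ^ 2 - X : ℤ[X]).natDegree = 2 := by compute_degree!
      omega)
    have e : -(X * w (X : ℤ[X]) (0 + 2)) = (X ^ 2 - X) ^ 2 + (X - X ^ 2) := by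
      rw [zero_add, w_succ _ 1, w_succ _ 0, w_zero]
      ring
    rwa [e]
  | succ m ih =>
    have e : -(X * w (X : ℤ[X]) (m + 1 + 2)) =
        (-(X * w (X : ℤ[X]) (m + 2))) ^ 2 + (X - X ^ 2) := by
      rw [show m + 1 + 2 = m + 2 + 1 by ring, w_succ _ (m + 2)]
      ring
    rw [e]
    exact key _ ih.1 ih.2

lemma integral_of_w {u : R} {m : ℕ} (hm : 0 < m) (h : w u m = 0) : IsIntegral ℤ u := by
  obtain ⟨j, hj⟩ : ∃ j, m + m = j + 2 := ⟨m + m - 2, by omega⟩
  refine ⟨_, (monic_w j).1, ?_⟩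
  have h1 := map_w (eval₂RingHom (algebraMap ℤ R) u) X (j + 2)
  rw [coe_eval₂RingHom, eval₂_X, ← hj, w_double h] at h1
  rw [eval₂_neg, eval₂_mul, ← hj, h1, mul_zero, neg_zero]

end Ring

lemma dvd_natDegree {F : Type} [Field F] (N : ℕ) (p : F[X]) (hp : p ≠ 0)
    (h : ∀ g : F[X], Irreducible g → g ∣ p → N ∣ g.natDegree) : N ∣ p.natDegree := by
  induction p using UniqueFactorizationMonoid.induction_on_prime with
  | h₁ => exact absurd rfl hp
  | h₂ x hx => rw [natDegree_eq_zero_of_isUnit hx]; exact dvd_zero N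
  | h₃ a q ha hq ih =>
    rw [natDegree_mul hq.ne_zero ha]
    exact dvd_add (h q hq.irreducible (dvd_mul_right q a))
      (ih ha fun g hg hga => h g hg (hga.mul_left q))

variable {K : Type} [Field K] [CharZero K]

/-- the degree is read off from the residues above two -/
lemma degree_dvd (x : integralClosure ℤ K) (n : ℕ)
    (h : ∀ Q : Ideal (integralClosure ℤ K), Q.IsPrime → 2 ∈ Q →
      x ^ 2 ^ 2 ^ (n + 1) - x ∈ Q ∧ x ^ 2 ^ 2 ^ n - x ∉ Q) :
    2 ^ (n + 1) ∣ (minpoly ℚ (x : K)).natDegree := by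
  have hx : IsIntegral ℤ (x : K) := x.2
  have hm := minpoly.monic hx
  rw [minpoly.isIntegrallyClosed_eq_field_fractions' ℚ hx, hm.natDegree_map,
    ← hm.natDegree_map (Int.castRingHom (ZMod 2))]
  refine dvd_natDegree _ _ (hm.map _).ne_zero fun g hg hgm => ?_
  have hgp : (Ideal.span {g}).IsPrime := (Ideal.span_singleton_prime hg.ne_zero).2 hg.prime
  let ρ : ℤ[X] →+* (ZMod 2)[X] := mapRingHom (Int.castRingHom (ZMod 2))
  let φ : ℤ[X] →+* integralClosure ℤ K := (aeval x).toRingHom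
  let : Algebra ℤ[X] (integralClosure ℤ K) := φ.toAlgebra
  have : Algebra.IsIntegral ℤ[X] (integralClosure ℤ K) :=
    ⟨fun y => (Algebra.IsIntegral.isIntegral (R := ℤ) y).tower_top⟩
  obtain ⟨Q, hQ, hQP⟩ := Ideal.exists_ideal_over_prime_of_isIntegral_of_isDomain
    (S := integralClosure ℤ K) ((Ideal.span {g}).comap ρ) (fun p hp => by
      have h1 : aeval (x : K) p = 0 := by
        have h2 : aeval x p = 0 := hp
        have h3 := aeval_algHom_apply (integralClosure ℤ K).val x p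
        rw [h2, map_zero] at h3
        exact h3
      exact Ideal.mem_span_singleton.2 (hgm.trans
        (Polynomial.map_dvd _ (minpoly.isIntegrallyClosed_dvd hx h1))))
  have mem : ∀ p : ℤ[X], aeval x p ∈ Q ↔ g ∣ p.map (Int.castRingHom (ZMod 2)) := fun p => by
    rw [← Ideal.mem_span_singleton]
    change p ∈ Q.comap (algebraMap ℤ[X] _) ↔ p ∈ (Ideal.span {g}).comap ρ
    rw [hQP]
  have h2 : (2 : integralClosure ℤ K) ∈ Q := by
    have h3 := (mem (C 2)).2 (by
      rw [map_C, show Int.castRingHom (ZMod 2) 2 = 0 from rfl, map_zero]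
      exact dvd_zero g)
    rwa [aeval_C, map_ofNat] at h3
  have key : ∀ N : ℕ, x ^ 2 ^ N - x ∈ Q ↔ g.natDegree ∣ N := fun N => by
    have h3 := mem (X ^ 2 ^ N - X)
    rw [map_sub, map_pow, aeval_X, Polynomial.map_sub, Polynomial.map_pow, map_X] at h3
    rw [h3, hg.natDegree_dvd_iff_dvd_X_pow_card_pow_sub_X, Nat.card_zmod]
  obtain ⟨h4, h5⟩ := h Q hQ h2
  rw [key] at h4 h5
  obtain ⟨j, hj, he⟩ := (Nat.dvd_prime_pow Nat.prime_two).1 h4
  rw [he] at h5 ⊢
  exact pow_dvd_pow 2 (not_lt.1 fun h6 => h5 (pow_dvd_pow 2 (by omega)))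

lemma w_logistic (r : K) (m : ℕ) :
    w (r / 2) m = 2 * ((fun x => r * x * (1 - x))^[m] (1 / 2) - 1 / 2) := by
  induction m with
  | zero => simp [w_zero]
  | succ m ih =>
    rw [w_succ, ih, iterate_succ_apply']
    ring

lemma w_eq_zero_iff (r : K) (m : ℕ) :
    w (r / 2) m = 0 ↔ minimalPeriod (fun x => r * x * (1 - x)) (1 / 2) ∣ m := by
  rw [w_logistic, ← isPeriodicPt_iff_minimalPeriod_dvd, mul_eq_zero, sub_eq_zero]
  simp only [OfNat.ofNat_ne_zero, false_or]
  rfl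

/-- a superstable parameter is twice an algebraic integer -/
lemma exists_lift {r : K} {n : ℕ}
    (h : minimalPeriod (fun x => r * x * (1 - x)) (1 / 2) = 2 ^ n) :
    ∃ u : integralClosure ℤ K, (u : K) = r / 2 ∧ w u (2 ^ n) = 0 ∧
      ∀ j, n = j + 1 → IsUnit (w u (2 ^ j)) := by
  have h1 : w (r / 2) (2 ^ n) = 0 := (w_eq_zero_iff r _).2 h.dvd
  let u : integralClosure ℤ K := ⟨r / 2, integral_of_w (pow_pos two_pos n) h1⟩
  have e : ∀ m, w u m = 0 ↔ w (r / 2) m = 0 := fun m => by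
    have h2 : ((w u m : integralClosure ℤ K) : K) = w (r / 2) m :=
      map_w (integralClosure ℤ K).val.toRingHom u m
    rw [← h2]
    exact Subtype.ext_iff
  refine ⟨u, rfl, (e _).2 h1, ?_⟩
  rintro j rfl
  refine w_unit (fun h2 => ?_) ((e _).2 (by rwa [← two_mul, ← pow_succ']))
  rw [e, w_eq_zero_iff, h] at h2
  exact absurd (Nat.le_of_dvd (pow_pos two_pos j) h2)
    (not_le.2 (Nat.pow_lt_pow_right one_lt_two j.lt_succ_self))

/-- criterion by reduction maps -/
lemma degree_dvd' (x : integralClosure ℤ K) (n : ℕ)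
    (h : ∀ (D : Type) [CommRing D] [IsDomain D] [CharP D 2] (π : integralClosure ℤ K →+* D),
      π x ^ 2 ^ 2 ^ (n + 1) = π x ∧ π x ^ 2 ^ 2 ^ n ≠ π x) :
    2 ^ (n + 1) ∣ (minpoly ℚ (x : K)).natDegree := by
  refine degree_dvd x n fun Q hQ h2 => ?_
  have : CharP (integralClosure ℤ K ⧸ Q) 2 := CharTwo.of_one_ne_zero_of_two_eq_zero one_ne_zero
    (by rw [← map_ofNat (Ideal.Quotient.mk Q) 2]; exact Ideal.Quotient.eq_zero_iff_mem.2 h2)
  have h1 := h _ (Ideal.Quotient.mk Q)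
  rw [← Ideal.Quotient.eq, ← Ideal.Quotient.eq, map_pow, map_pow]
  exact h1

section Two
variable {D : Type} [CommRing D] [IsDomain D] [CharP D 2]

omit [IsDomain D] in
lemma fix_of_w {u : D} {m : ℕ} (h : w u m = 0) : u ^ 2 ^ m = u := by
  rw [w_two CharTwo.two_eq_zero, h, add_zero, mul_one]

lemma not_fix_of_w {u : D} {m : ℕ} (hu : u ≠ 0) (h : w u m ≠ 0) : u ^ 2 ^ m ≠ u := by
  rw [w_two CharTwo.two_eq_zero]
  intro h1
  refine h (mul_left_cancel₀ hu ?_)
  linear_combination h1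

omit [IsDomain D] [CharP D 2] in
lemma w_pow {u : D} {i : ℕ} (h : w u (2 ^ i) = 0) (j : ℕ) : w u (2 ^ (i + j)) = 0 := by
  induction j with
  | zero => exact h
  | succ j ih =>
    rw [← add_assoc, pow_succ, mul_two]
    exact w_double ih

omit [IsDomain D] in
lemma w_fix {u : D} {N : ℕ} (h : u ^ 2 ^ N = u) (m : ℕ) : w u m ^ 2 ^ N = w u m := by
  have h1 := map_w (iterateFrobenius D 2 N) u m
  rwa [iterateFrobenius_def, iterateFrobenius_def, h] at h1

/-- a quotient of fixed elements is fixed -/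
lemma fix_of_mul {d s t : D} {q : ℕ} (h : d * s = t) (hs : s ≠ 0) (h1 : s ^ q = s)
    (h2 : t ^ q = t) : d ^ q = d := by
  refine mul_right_cancel₀ hs ?_
  rw [h, ← h2, ← h, mul_pow, h1]

end Two

end Pool.Agent.Feig
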